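import Pool.Agent.H.MP_a56edf_an.Main

namespace Pool.Agent.H.MP_68f07c_an

open Finset Filter Topology BoundedContinuousFunction
open Pool.Agent.H.MP_f9d380_an (L1 u u_app norm_u smul_u sum_app)
open Pool.Agent.H.MP_8f7167_an (ev ev_app)
open Pool.Agent.H.MP_a56edf_an (co_le Q Q_app Q_le)

theorem basic {Y : Type} [NormedAddCommGroup Y] [NormedSpace ℝ Y] (y : ℕ → Y) (g : ℕ → Y →L[ℝ] ℝ)
    (bi : ∀ i j, g i (y j) = if i = j then 1 else 0) (K : ℝ)
    (hK : ∀ (c : ℕ →₀ ℝ) m, ‖∑ i ∈ range m, c i • y i‖ ≤ K * ‖c.sum fun i a => a • y i‖) :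
    ∀ v ∈ (Submodule.span ℝ (Set.range y)).topologicalClosure, ∃! a : ℕ → ℝ,
      Tendsto (fun m => ∑ i ∈ range m, a i • y i) atTop (𝓝 v) := fun v hv => by
  have co : ∀ (c : ℕ →₀ ℝ) i, g i (c.sum fun i a => a • y i) = c i := fun c i => by
    simpa [Finsupp.sum, map_sum, bi] using Eq.symm
  have bd : ∀ m, ∀ w ∈ (Submodule.span ℝ (Set.range y)).topologicalClosure,
      ‖∑ i ∈ range m, g i w • y i‖ ≤ K * ‖w‖ := fun m w hw =>
    closure_minimal (t := {w | ‖∑ i ∈ range m, g i w • y i‖ ≤ K * ‖w‖}) (fun w hw => by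
      obtain ⟨c, rfl⟩ := Finsupp.mem_span_range_iff_exists_finsupp.1 hw
      simpa only [Set.mem_ofPred_eq, co] using hK c m) (isClosed_le (by fun_prop) (by fun_prop)) hw
  refine ⟨fun i => g i v, Metric.tendsto_atTop.2 fun ε hε => ?_, fun a h => funext fun i =>
    tendsto_nhds_unique (tendsto_const_nhds.congr' (by
      filter_upwards [eventually_gt_atTop i] with k hk
      simp [map_sum, bi, hk])) (((g i).continuous.tendsto _).comp h)⟩
  obtain ⟨w, hw, h⟩ := Metric.mem_closure_iff.1 hv (ε / (|K| + 1)) (by positivity)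
  have h1 := fun m => bd m (v - w) (Submodule.sub_mem _ hv (Submodule.le_topologicalClosure _ hw))
  obtain ⟨c, rfl⟩ := Finsupp.mem_span_range_iff_exists_finsupp.1 hw
  refine ⟨c.support.sup id + 1, fun m hm => ?_⟩
  have e : ∑ i ∈ range m, c i • y i = c.sum fun i a => a • y i :=
    (Finsupp.sum_of_support_subset c (fun i hi => mem_range.2
      (lt_of_lt_of_le (Nat.lt_succ_of_le (le_sup (f := id) hi)) hm)) (fun i a => a • y i)
      fun _ _ => zero_smul _ _).symm
  have h2 := h1 m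
  simp only [map_sub, co, sub_smul, sum_sub_distrib, e] at h2
  rw [dist_eq_norm, lt_div_iff₀ (by positivity)] at h
  rw [dist_eq_norm]
  linarith [norm_sub_le_norm_sub_add_norm_sub (∑ i ∈ range m, g i v • y i)
    (c.sum fun i a => a • y i) v, norm_sub_rev v (c.sum fun i a => a • y i),
    mul_le_mul_of_nonneg_right (le_abs_self K) (norm_nonneg (v - c.sum fun i a => a • y i))]

def Z₀ : Submodule ℝ (ℕ →ᵇ ℝ) where
  carrier := {z | ∀ n, Tendsto (fun k : ℕ => z (n + k.factorial)) atTop (𝓝 (z n))}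
  add_mem' h1 h2 n := (h1 n).add (h2 n)
  zero_mem' _ := tendsto_const_nhds
  smul_mem' c _ h n := (h n).const_mul c

theorem closed : IsClosed (Z₀ : Set (ℕ →ᵇ ℝ)) := isClosed_of_closure_subset fun z hz n =>
  Metric.tendsto_atTop.2 fun ε hε => by
    obtain ⟨w, hw, h⟩ := Metric.mem_closure_iff.1 hz (ε / 3) (by positivity)
    obtain ⟨N, hN⟩ := Metric.tendsto_atTop.1 (hw n) (ε / 3) (by positivity)
    exact ⟨N, fun k hk => by
      linarith [dist_triangle4 (z (n + k.factorial)) (w (n + k.factorial)) (w n) (z n), hN k hk,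
        dist_coe_le_dist (f := z) (g := w) (n + k.factorial), dist_coe_le_dist (f := w) (g := z) n,
        dist_comm w z]⟩

def E : Type := L1 × Z₀

noncomputable instance : NormedAddCommGroup E := inferInstanceAs (NormedAddCommGroup (L1 × Z₀))
noncomputable instance : NormedSpace ℝ E := inferInstanceAs (NormedSpace ℝ (L1 × Z₀))
instance : CompleteSpace E :=
  have := closed.completeSpace_coe
  inferInstanceAs (CompleteSpace (L1 × Z₀))

noncomputable def p1 : E →L[ℝ] L1 := ContinuousLinearMap.fst ℝ L1 Z₀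
noncomputable def p2 : E →L[ℝ] (ℕ →ᵇ ℝ) := Z₀.subtypeL ∘L ContinuousLinearMap.snd ℝ L1 Z₀
noncomputable def i1 : L1 →L[ℝ] E := ContinuousLinearMap.inl ℝ L1 Z₀

noncomputable def x (n : ℕ) : E := i1 (u n)

noncomputable def f (n : ℕ) : E →L[ℝ] ℝ := ev n ∘L p1 + evalCLM ℝ n ∘L p2

theorem f_app (n : ℕ) (v : E) : f n v = p1 v n + p2 v n := rfl

theorem p1_le (v : E) : ‖p1 v‖ ≤ ‖v‖ := le_max_left _ _
theorem p2_le (v : E) : ‖p2 v‖ ≤ ‖v‖ := le_max_right _ _
theorem norm_i1 (a : L1) : ‖i1 a‖ = ‖a‖ :=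
  max_eq_left ((norm_zero (E := Z₀)).trans_le (norm_nonneg a))

theorem bi (i j : ℕ) : f i (x j) = if i = j then 1 else 0 := (add_zero _).trans (u_app i j)

theorem total (v : E) (h : ∀ n, f n v = 0) : v = 0 := by
  have h1 : Tendsto (p1 v) atTop (𝓝 0) :=
    (Summable.of_norm (by simpa using (p1 v).2.summable (by simp))).tendsto_atTop_zero
  have h2 : ∀ n, p2 v n = 0 := fun n => by
    have := (h1.comp (tendsto_atTop_mono (fun k => (Nat.self_le_factorial k).trans
      (Nat.le_add_left _ n)) tendsto_id)).neg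
    rw [neg_zero] at this
    exact tendsto_nhds_unique (v.2.2 n) (this.congr fun k => neg_eq_of_add_eq_zero_right (h _))
  exact Prod.ext (lp.ext (funext fun n => (add_zero _).symm.trans (h2 n ▸ h n)))
    (Subtype.ext (BoundedContinuousFunction.ext h2))

theorem low (s : Finset ℕ) (c : ℕ → ℝ) : ∑ i ∈ s, |c i| ≤ ‖∑ i ∈ s, c i • f i‖ := by
  let N := s.sup id + 1
  have b : ∀ n, ‖(SignType.sign (c (n % N)) : ℝ)‖ ≤ 1 := fun n => by
    cases SignType.sign (c (n % N)) <;> simp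
  let z : Z₀ := ⟨ofNormedAddCommGroupDiscrete (fun n => (SignType.sign (c (n % N)) : ℝ)) 1 b,
    fun n => tendsto_const_nhds.congr' (by
      filter_upwards [eventually_ge_atTop N] with k hk
      obtain ⟨r, hr⟩ := Nat.dvd_factorial (Nat.succ_pos _) hk
      simp [hr, N])⟩
  have h1 : ‖((0, z) : E)‖ ≤ 1 := max_le (by simp) ((norm_le zero_le_one).2 b)
  have h2 := (∑ i ∈ s, c i • f i).le_of_opNorm_le_of_le le_rfl h1
  rw [mul_one, _root_.sum_apply] at h2
  refine le_trans (le_of_eq (sum_congr rfl fun i hi => ?_)) ((le_abs_self _).trans h2)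
  change _ = c i * (0 + (SignType.sign (c (i % N)) : ℝ))
  rw [Nat.mod_eq_of_lt (show i < N from Nat.lt_succ_of_le (le_sup (f := id) hi)), zero_add,
    self_mul_sign]

theorem up (s : Finset ℕ) (c : ℕ → ℝ) : ‖∑ i ∈ s, c i • f i‖ ≤ 2 * ∑ i ∈ s, |c i| := by
  rw [mul_sum]
  refine norm_sum_le_of_le _ fun i _ => ?_
  rw [norm_smul, mul_comm]
  refine mul_le_mul_of_nonneg_right (ContinuousLinearMap.opNorm_le_bound _ zero_le_two fun v => ?_)
    (abs_nonneg _)
  rw [f_app]
  linarith [norm_add_le (p1 v i) (p2 v i), p1_le v, p2_le v,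
    (p2 v).norm_coe_le_norm i, show ‖p1 v i‖ ≤ _ from co_le (p1 v) i]

theorem x_bound (c : ℕ →₀ ℝ) (m : ℕ) :
    ‖∑ i ∈ range m, c i • x i‖ ≤ 1 * ‖c.sum fun i a => a • x i‖ := by
  have h := (Q_le m (∑ i ∈ c.support, c i • u i)).1
  rw [Q_app, sum_congr rfl (g := fun i => c i • u i) fun i _ => by
    rw [sum_app]; by_cases h : c i = 0 <;> simp [h]] at h
  simp only [Finsupp.sum, x, ← map_smul, ← map_sum, norm_i1, one_mul]
  exact h

theorem f_bound (c : ℕ →₀ ℝ) (m : ℕ) :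
    ‖∑ i ∈ range m, c i • f i‖ ≤ 2 * ‖c.sum fun i a => a • f i‖ := by
  rw [Finsupp.sum_of_support_subset c (subset_union_left (s₂ := range m)) (fun i a => a • f i)
    fun _ _ => zero_smul _ _]
  linarith [up (range m) c, low (c.support ∪ range m) c, sum_le_sum_of_subset_of_nonneg
    (f := fun i => |c i|) (subset_union_right (s₁ := c.support) (s₂ := range m))
    fun _ _ _ => abs_nonneg _]

theorem diverge (h : E →L[ℝ] ℝ) :
    ¬ Tendsto (fun m => ∑ i ∈ range m, (1 / ((i : ℝ) + 1)) • f i) atTop (𝓝 h) := fun H =>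
  not_tendsto_atTop_of_tendsto_nhds H.norm (tendsto_atTop_mono (fun m =>
    (sum_le_sum fun _ _ => le_abs_self _).trans (low (range m) _))
    Real.tendsto_sum_range_one_div_nat_succ_atTop)

theorem converge {W : Type} [NormedAddCommGroup W] [NormedSpace ℝ W] (J : W →L[ℝ] E)
    (hJ : ∀ w, ‖J w‖ ≤ ‖w‖) (h0 : ∀ w, p2 (J w) = 0) : ∃ h : W →L[ℝ] ℝ,
      Tendsto (fun m => ∑ i ∈ range m, (1 / ((i : ℝ) + 1)) • f i ∘L J) atTop (𝓝 h) := by
  refine cauchySeq_tendsto_of_complete (cauchySeq_of_le_tendsto_0' _ (fun n m h => ?_)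
    tendsto_one_div_add_atTop_nhds_zero_nat)
  rw [dist_comm, dist_eq_norm, ← sum_Ico_eq_sub _ h]
  refine ContinuousLinearMap.opNorm_le_bound _ (by positivity) fun w => ?_
  have h2 := lp.sum_rpow_le_norm_rpow (p := 1) (by simp) (p1 (J w)) (Ico n m)
  simp only [ENNReal.toReal_one, Real.rpow_one] at h2
  rw [_root_.sum_apply]
  refine le_trans (norm_sum_le_of_le _ fun i hi => ?_) (((mul_sum _ _ _).ge).trans
    (mul_le_mul_of_nonneg_left (h2.trans ((p1_le _).trans (hJ w))) (by positivity)))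
  change ‖1 / ((i : ℝ) + 1) * (p1 (J w) i + p2 (J w) i)‖ ≤ _
  rw [h0, BoundedContinuousFunction.coe_zero, Pi.zero_apply, add_zero, norm_mul,
    Real.norm_of_nonneg (by positivity)]
  exact mul_le_mul_of_nonneg_right (Nat.one_div_le_one_div (mem_Ico.1 hi).1) (norm_nonneg _)

end Pool.Agent.H.MP_68f07c_an
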